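import Pool.Agent.W91.BH.Stm

set_option autoImplicit false

namespace Pool.Agent.W827.BH.Cov2

open Pool.Agent.W91.BH

theorem floor_lem (y : ℝ) (m : ℕ) (hm : 0 < m) : ⌊y / (m : ℝ)⌋ = ⌊y⌋ / (m : ℤ) := by
  have hmR : (0 : ℝ) < m := by exact_mod_cast hm
  have hmZ : (0 : ℤ) < m := by exact_mod_cast hm
  rw [Int.floor_eq_iff]
  have h1 := Int.mul_ediv_add_emod ⌊y⌋ (m : ℤ)
  have h2 := Int.emod_nonneg ⌊y⌋ hmZ.ne'
  have h3 := Int.emod_lt_of_pos ⌊y⌋ hmZ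
  have h4 : (m : ℤ) * (⌊y⌋ / (m : ℤ)) ≤ ⌊y⌋ := by omega
  have h5 : ⌊y⌋ + 1 ≤ (m : ℤ) * (⌊y⌋ / (m : ℤ)) + m := by omega
  have h4' : (m : ℝ) * ((⌊y⌋ / (m : ℤ) : ℤ) : ℝ) ≤ (⌊y⌋ : ℝ) := by exact_mod_cast h4
  have h5' : (⌊y⌋ : ℝ) + 1 ≤ (m : ℝ) * ((⌊y⌋ / (m : ℤ) : ℤ) : ℝ) + m := by exact_mod_cast h5
  have h6 := Int.floor_le y
  have h7 := Int.lt_floor_add_one y
  constructor
  · rw [le_div_iff₀ hmR]; linarith
  · rw [div_lt_iff₀ hmR]; linarith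

theorem floor_pow (x : ℝ) (l k : ℕ) (h : l ≤ k) :
    ⌊(2 : ℝ) ^ l * x⌋ = ⌊(2 : ℝ) ^ k * x⌋ / (2 : ℤ) ^ (k - l) := by
  have h1 := floor_lem ((2 : ℝ) ^ k * x) (2 ^ (k - l)) (by positivity)
  have h2 : (2 : ℝ) ^ k * x / ((2 ^ (k - l) : ℕ) : ℝ) = (2 : ℝ) ^ l * x := by
    have : (2 : ℝ) ^ k = 2 ^ l * 2 ^ (k - l) := by
      rw [← pow_add]; congr 1; omega
    rw [this]
    push_cast
    field_simp
  rw [h2] at h1
  rw [h1]
  push_cast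
  rfl

/-- the ancestor of level `l` -/
def anc (n : ℕ) (Q : Idx n) (l : ℕ) : Idx n := (l, fun i => Q.2 i / (2 : ℤ) ^ (Q.1 - l))

theorem anc_eq (n : ℕ) (Q P : Idx n) (x : E n) (hQ : x ∈ cube n Q) (hP : x ∈ cube n P)
    (h : P.1 ≤ Q.1) : P = anc n Q P.1 := by
  refine Prod.ext rfl ?_
  funext i
  show P.2 i = Q.2 i / (2 : ℤ) ^ (Q.1 - P.1)
  rw [← hQ i, ← hP i]
  exact floor_pow _ _ _ h

theorem sub_anc (n : ℕ) (Q : Idx n) (l : ℕ) (h : l ≤ Q.1) : cube n Q ⊆ cube n (anc n Q l) := by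
  intro x hx i
  show ⌊(2 : ℝ) ^ l * x i⌋ = Q.2 i / (2 : ℤ) ^ (Q.1 - l)
  rw [← hx i]
  exact floor_pow _ _ _ h

/-- points with given rescaled coordinates -/
theorem pt (n : ℕ) (Q : Idx n) (t : Fin n → ℝ) : ∃ x : E n, ∀ i, (2 : ℝ) ^ Q.1 * x i = t i := by
  refine ⟨WithLp.toLp 2 (fun i => t i / (2 : ℝ) ^ Q.1), fun i => ?_⟩
  show (2 : ℝ) ^ Q.1 * (t i / (2 : ℝ) ^ Q.1) = t i
  field_simp

theorem nonemp (n : ℕ) (Q : Idx n) : (cube n Q).Nonempty := by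
  obtain ⟨x, hx⟩ := pt n Q (fun i => (Q.2 i : ℝ))
  refine ⟨x, fun i => ?_⟩
  rw [hx i]
  exact Int.floor_intCast _

theorem sub_level (n : ℕ) (hn : 0 < n) (Q P : Idx n) (h : cube n Q ⊆ cube n P) : P.1 ≤ Q.1 := by
  by_contra hcon
  push Not at hcon
  let i0 : Fin n := ⟨0, hn⟩
  obtain ⟨x, hx⟩ := pt n Q (fun i => (Q.2 i : ℝ))
  obtain ⟨y, hy⟩ := pt n Q (fun i => (Q.2 i : ℝ) + 1 / 2)
  have hxQ : x ∈ cube n Q := fun i => by rw [hx i]; exact Int.floor_intCast _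
  have hyQ : y ∈ cube n Q := fun i => by
    rw [hy i, Int.floor_eq_iff]
    constructor <;> linarith
  have h1 := h hxQ i0
  have h2 := h hyQ i0
  have h3 : (2 : ℝ) ^ P.1 * y i0 - (2 : ℝ) ^ P.1 * x i0 = (2 : ℝ) ^ (P.1 - Q.1) / 2 := by
    have e : (2 : ℝ) ^ P.1 = (2 : ℝ) ^ (P.1 - Q.1) * (2 : ℝ) ^ Q.1 := by
      rw [← pow_add]; congr 1; omega
    rw [e, mul_assoc, mul_assoc, hx i0, hy i0]
    ring
  have h4 : (1 : ℝ) ≤ (2 : ℝ) ^ (P.1 - Q.1) / 2 := by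
    obtain ⟨j, hj⟩ : ∃ j, P.1 - Q.1 = j + 1 := ⟨P.1 - Q.1 - 1, by omega⟩
    rw [hj, pow_succ]
    have : (1 : ℝ) ≤ 2 ^ j := one_le_pow₀ (by norm_num)
    linarith
  rw [Int.floor_eq_iff] at h1 h2
  linarith [h1.1, h1.2, h2.1, h2.2]

theorem sub_eq (n : ℕ) (hn : 0 < n) (Q P : Idx n) (h : cube n Q ⊆ cube n P) :
    P.1 ≤ Q.1 ∧ P = anc n Q P.1 := by
  have h1 := sub_level n hn Q P h
  obtain ⟨x, hx⟩ := nonemp n Q
  exact ⟨h1, anc_eq n Q P x hx (h hx) h1⟩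

open Classical in
theorem cov2 : S_COV2 := by
  intro n d K F0 ε a hn hd hK hw hε
  set w : Idx n → ℝ := fun Q => (2 : ℝ) ^ (-((Q.1 : ℝ) * d)) with hwdef
  have hwpos : ∀ Q, 0 < w Q := fun Q => Real.rpow_pos_of_pos (by norm_num) _
  let G : Finset (Idx n) := F0.biUnion (fun Q => (Finset.range (Q.1 + 1)).image (anc n Q))
  have hG : ∀ Q0 ∈ F0, ∀ P, cube n Q0 ⊆ cube n P → P ∈ G := by
    intro Q0 hQ0 P hP
    obtain ⟨h1, h2⟩ := sub_eq n hn Q0 P hP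
    rw [Finset.mem_biUnion]
    refine ⟨Q0, hQ0, ?_⟩
    rw [Finset.mem_image]
    exact ⟨P.1, Finset.mem_range.mpr (by omega), h2.symm⟩
  have hG' : ∀ Q ∈ G, ∃ Q0 ∈ F0, cube n Q0 ⊆ cube n Q := by
    intro Q hQ
    rw [Finset.mem_biUnion] at hQ
    obtain ⟨Q0, hQ0, hQ⟩ := hQ
    rw [Finset.mem_image] at hQ
    obtain ⟨l, hl, rfl⟩ := hQ
    exact ⟨Q0, hQ0, sub_anc n Q0 l (by have := Finset.mem_range.mp hl; omega)⟩
  have hF0G : F0 ⊆ G := fun Q hQ => hG Q hQ Q Set.Subset.rfl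
  let 𝒮 : Finset (Finset (Idx n)) := G.powerset.filter (fun F => K ⊆ ⋃ Q ∈ F, cube n Q)
  have h𝒮 : ∀ F, F ∈ 𝒮 ↔ F ⊆ G ∧ K ⊆ ⋃ Q ∈ F, cube n Q := by
    intro F
    rw [Finset.mem_filter, Finset.mem_powerset]
  have hF0 : F0 ∈ 𝒮 := (h𝒮 F0).mpr ⟨hF0G, hK⟩
  obtain ⟨F, hF, hmin⟩ := Finset.exists_min_image 𝒮 (fun F => ∑ Q ∈ F, w Q) ⟨F0, hF0⟩
  obtain ⟨hFG, hFK⟩ := (h𝒮 F).mp hF
  have hFε : ∑ Q ∈ F, w Q < ε := lt_of_le_of_lt (hmin F0 hF0) hw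
  have hcov : ∀ x ∈ K, ∃ Q ∈ F, x ∈ cube n Q := by
    intro x hx
    have := hFK hx
    simpa using this
  have herase : ∀ Q ∈ F, ∀ Q' ∈ F, Q ≠ Q' → ¬ cube n Q ⊆ cube n Q' := by
    intro Q hQ Q' hQ' hne hsub
    have h1 : F.erase Q ∈ 𝒮 := by
      rw [h𝒮]
      refine ⟨(Finset.erase_subset _ _).trans hFG, ?_⟩
      intro x hx
      obtain ⟨R, hR, hxR⟩ := hcov x hx
      rw [Set.mem_iUnion₂]
      by_cases hRQ : R = Q
      · subst hRQ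
        exact ⟨Q', Finset.mem_erase.mpr ⟨hne.symm, hQ'⟩, hsub hxR⟩
      · exact ⟨R, Finset.mem_erase.mpr ⟨hRQ, hR⟩, hxR⟩
    have h2 := hmin _ h1
    have h3 := Finset.add_sum_erase F w hQ
    have h4 := hwpos Q
    linarith
  refine ⟨F, hFK, hFε, ?_, ?_, ?_⟩
  · intro Q hQ
    have h1 : w Q ≤ ∑ Q ∈ F, w Q := Finset.single_le_sum (fun R _ => (hwpos R).le) hQ
    have h2 : w Q < (2 : ℝ) ^ (-((a : ℝ) * d)) := lt_of_lt_of_le (lt_of_le_of_lt h1 hFε) hε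
    rw [hwdef] at h2
    have h3 := (Real.rpow_lt_rpow_left_iff (by norm_num : (1 : ℝ) < 2)).mp h2
    have h4 : (a : ℝ) * d < (Q.1 : ℝ) * d := by linarith
    have h5 : (a : ℝ) < Q.1 := lt_of_mul_lt_mul_right h4 hd.le
    have h6 : a < Q.1 := by exact_mod_cast h5
    exact h6.le
  · intro Q hQ Q' hQ' hne
    rw [Set.disjoint_iff_inter_eq_empty]
    by_contra hcon
    obtain ⟨x, hx1, hx2⟩ := Set.nonempty_iff_ne_empty.mpr hcon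
    rcases le_total Q'.1 Q.1 with h | h
    · have h1 := anc_eq n Q Q' x hx1 hx2 h
      apply herase Q hQ Q' hQ' hne
      rw [h1]
      exact sub_anc n Q _ h
    · have h1 := anc_eq n Q' Q x hx2 hx1 h
      apply herase Q' hQ' Q hQ hne.symm
      rw [h1]
      exact sub_anc n Q' _ h
  · intro P
    set S := F.filter (fun Q => cube n Q ⊆ cube n P) with hS
    by_contra hcon
    push Not at hcon
    have hcon' : w P < ∑ Q ∈ S, w Q := hcon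
    have hSne : S.Nonempty := by
      by_contra hemp
      rw [Finset.not_nonempty_iff_eq_empty] at hemp
      rw [hemp, Finset.sum_empty] at hcon'
      linarith [hwpos P]
    obtain ⟨Q, hQ⟩ := hSne
    rw [hS, Finset.mem_filter] at hQ
    obtain ⟨Q0, hQ0, hsub⟩ := hG' Q (hFG hQ.1)
    have hPG : P ∈ G := hG Q0 hQ0 P (hsub.trans hQ.2)
    have h1 : insert P (F \ S) ∈ 𝒮 := by
      rw [h𝒮]
      refine ⟨?_, ?_⟩
      · intro R hR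
        rcases Finset.mem_insert.mp hR with rfl | hR
        · exact hPG
        · exact hFG (Finset.mem_sdiff.mp hR).1
      · intro x hx
        obtain ⟨R, hR, hxR⟩ := hcov x hx
        rw [Set.mem_iUnion₂]
        by_cases hRS : R ∈ S
        · rw [hS, Finset.mem_filter] at hRS
          exact ⟨P, Finset.mem_insert_self _ _, hRS.2 hxR⟩
        · exact ⟨R, Finset.mem_insert_of_mem (Finset.mem_sdiff.mpr ⟨hR, hRS⟩), hxR⟩
    have h2 := hmin _ h1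
    have h3 : ∑ Q ∈ insert P (F \ S), w Q ≤ w P + ∑ Q ∈ F \ S, w Q := by
      by_cases hP : P ∈ F \ S
      · rw [Finset.insert_eq_of_mem hP]
        linarith [hwpos P]
      · rw [Finset.sum_insert hP]
    have h4 : ∑ Q ∈ F \ S, w Q + ∑ Q ∈ S, w Q = ∑ Q ∈ F, w Q :=
      Finset.sum_sdiff (Finset.filter_subset _ _)
    linarith

end Pool.Agent.W827.BH.Cov2
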